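import Pool.Agent.W312.TP.Stm

set_option autoImplicit false

namespace Pool.Agent.W230.TP

open Pool.Agent.W312.TP

lemma walk_le {V : Type} {T : SimpleGraph V} (hT : T.Connected) (f : ℕ → V) (R : ℕ)
    (h : ∀ j < R, T.Adj (f j) (f (j + 1))) (a : ℕ) :
    ∀ b, a ≤ b → b ≤ R → T.dist (f a) (f b) ≤ b - a := by
  intro b
  induction b with
  | zero =>
    intro h1 _
    have : a = 0 := by omega
    subst this
    simp
  | succ b ih =>
    intro h1 h2
    by_cases h3 : a = b + 1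
    · subst h3
      simp
    · have h4 := ih (by omega) (by omega)
      have h5 := hT.dist_triangle (u := f a) (v := f b) (w := f (b + 1))
      have h6 : T.dist (f b) (f (b + 1)) = 1 := SimpleGraph.dist_eq_one_iff_adj.2 (h b (by omega))
      omega

/-- The data of a false element. -/
structure Inf (t : ℕ) {V : Type} (T : SimpleGraph V) (c : ℕ → V) (P : ℕ → ℕ → V) (e ju jl jq : ℕ) :
    Prop where
  hu : ju = 0 ∨ ju = rr t - 1
  hl : jl = 0 ∨ jl = rr t - 1
  hne : ju ≠ jl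
  hq : jq ≤ rr t - 1
  ev : EV t P e = P (e / 2) jl
  sum : T.dist (P (e / 2) ju) (c 0) + T.dist (P (e / 2) ju) (c t) = t + 2
  l0 : T.dist (P (e / 2) jl) (c 0) = T.dist (P (e / 2) ju) (c 0) + (rr t - 1)
  lt : T.dist (P (e / 2) jl) (c t) = T.dist (P (e / 2) ju) (c t) + (rr t - 1)
  lu : T.dist (P (e / 2) jl) (P (e / 2) ju) = rr t - 1
  bb : ∀ z, (∀ j, 0 < j → j < rr t - 1 → z ≠ P (e / 2) j) →
    T.dist z (P (e / 2) jl) = T.dist z (P (e / 2) ju) + (rr t - 1) ∨
    T.dist z (P (e / 2) ju) = T.dist z (P (e / 2) jl) + (rr t - 1)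
  adj : T.Adj (P (e / 2) jl) (P (e / 2) jq)
  qu : T.dist (P (e / 2) jq) (P (e / 2) ju) + 2 ≤ rr t

lemma inf (hBB : BB) (hTF : TF) {t p : ℕ} {gs : List Gad} {V : Type} {T : SimpleGraph V}
    {c : ℕ → V} {P a : ℕ → ℕ → V} (ht : 4 ≤ t) (hC : CoreTree t p gs V T c P a) {e : ℕ}
    (he : e < 2 * p) (hF : Fls t T c P e) : ∃ ju jl jq, Inf t T c P e ju jl jq := by
  have hr : 2 ≤ rr t := by unfold rr; omega
  have hi : e / 2 < p := by omega
  obtain ⟨b1, b2⟩ := hBB t p gs V T c P a ht hC _ hi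
  obtain ⟨-, h1⟩ := hTF t p gs V T c P a ht hC
  have h1 := h1 _ hi
  have hw := fun (x y : ℕ) => walk_le hC.tree.connected (P (e / 2)) (rr t - 1) (hC.padj _ hi) x y
  unfold Fls at hF
  by_cases hev : e % 2 = 0
  · have hEV : EV t P e = P (e / 2) 0 := by unfold EV; rw [if_pos hev]
    rw [hEV] at hF
    rcases h1 with h1 | h1
    · exact absurd h1.1 hF
    · refine ⟨rr t - 1, 0, 1, Or.inr rfl, Or.inl rfl, by omega, by omega, hEV, h1.1, h1.2.1, h1.2.2,
        b1, fun z hz => (b2 z hz).symm, hC.padj _ hi 0 (by omega), ?_⟩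
      have := hw 1 (rr t - 1) (by omega) le_rfl
      omega
  · have hEV : EV t P e = P (e / 2) (rr t - 1) := by unfold EV; rw [if_neg hev]
    rw [hEV] at hF
    rcases h1 with h1 | h1
    · refine ⟨0, rr t - 1, rr t - 2, Or.inl rfl, Or.inr rfl, by omega, by omega, hEV, h1.1, h1.2.1,
        h1.2.2, ?_, b2, ?_, ?_⟩
      · rw [SimpleGraph.dist_comm]; exact b1
      · have := hC.padj _ hi (rr t - 2) (by omega)
        have e1 : rr t - 2 + 1 = rr t - 1 := by omega
        rw [e1] at this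
        exact this.symm
      · have := hw 0 (rr t - 2) (by omega) (by omega)
        rw [SimpleGraph.dist_comm]
        omega
    · exact absurd h1.1 hF

lemma ar1 {X A α β γ ε R t r l0 lt l0' lt' lu : ℕ} (h : A = X + R) (hR : R = r - 1) (hr : 2 ≤ r)
    (f1 : A + l0 ≤ max (X + α) (l0' + lu)) (f2 : A + lt ≤ max (X + β) (lt' + lu))
    (e1 : l0 = α + R) (e2 : lt = β + R) (e3 : l0' = γ + R) (e4 : lt' = ε + R) (e5 : lu = R)
    (s1 : α + β = t + 2) (s2 : γ + ε = t + 2) (hX : 0 < X) : False := by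
  rw [le_max_iff] at f1 f2
  omega

lemma ar2 {Y B α β γ ε R t r l0' lt' lu' : ℕ} (h : B = Y + R) (hR : R = r - 1) (hr : 2 ≤ r)
    (f3 : B + l0' ≤ max (Y + γ) (α + lu')) (f4 : B + lt' ≤ max (Y + ε) (β + lu'))
    (e3 : l0' = γ + R) (e4 : lt' = ε + R) (e5 : lu' = R)
    (s1 : α + β = t + 2) (s2 : γ + ε = t + 2) : False := by
  rw [le_max_iff] at f3 f4
  omega

lemma ar3 {α β γ ε R t r l0 lt l0' lt' : ℕ} (hR : R = r - 1) (hr : 2 ≤ r) (h2 : 2 * r ≤ t)
    (h3 : t ≤ 2 * r + 1)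
    (f5 : β + γ ≤ max (1 + t) (α + ε)) (f6 : α + ε ≤ max (1 + t) (β + γ))
    (par : (1 + γ + α) % 2 = 0)
    (e1 : l0 = α + R) (e2 : lt = β + R) (e3 : l0' = γ + R) (e4 : lt' = ε + R)
    (d1 : l0 ≤ t) (d2 : lt ≤ t) (d3 : l0' ≤ t) (d4 : lt' ≤ t)
    (s1 : α + β = t + 2) (s2 : γ + ε = t + 2) : False := by
  rw [le_max_iff] at f5 f6
  omega

theorem proof_DD (hFOUR : FOUR) (hPAR : PAR) (hBB : BB) (hTF : TF) : DD := by
  intro t p gs V T c P a ht hC e he e' he' hee hF hF'
  have hr : 2 ≤ rr t := by unfold rr; omega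
  have hrt : 2 * rr t ≤ t ∧ t ≤ 2 * rr t + 1 := by unfold rr; omega
  have hi : e / 2 < p := by omega
  have hi' : e' / 2 < p := by omega
  obtain ⟨ju, jl, jq, I⟩ := inf hBB hTF ht hC he hF
  obtain ⟨ju', jl', jq', I'⟩ := inf hBB hTF ht hC he' hF'
  have hct := (hTF t p gs V T c P a ht hC).1
  -- the pairs are different
  have hne : e / 2 ≠ e' / 2 := by
    intro heq
    have hb : e % 2 ≠ e' % 2 := by omega
    have h1 := (hTF t p gs V T c P a ht hC).2 _ hi
    unfold Fls EV at hF hF'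
    rw [← heq] at hF'
    rcases Nat.mod_two_eq_zero_or_one e with h0 | h0
    · have h0' : e' % 2 ≠ 0 := by omega
      rw [if_pos h0] at hF
      rw [if_neg h0'] at hF'
      rcases h1 with h1 | h1
      · exact hF h1.1
      · exact hF' h1.1
    · have h0' : e' % 2 = 0 := by omega
      rw [if_neg (by omega)] at hF
      rw [if_pos h0'] at hF'
      rcases h1 with h1 | h1
      · exact hF' h1.1
      · exact hF h1.1
  have hju : ju ≤ rr t - 1 := by have := I.hu; omega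
  have hjl : jl ≤ rr t - 1 := by have := I.hl; omega
  have hju' : ju' ≤ rr t - 1 := by have := I'.hu; omega
  have hjl' : jl' ≤ rr t - 1 := by have := I'.hl; omega
  have dl := hC.dc e he
  have dl' := hC.dc e' he'
  rw [I.ev] at dl ⊢
  rw [I'.ev] at dl' ⊢
  have n1 : P (e / 2) jl ≠ P (e' / 2) jl' := fun h => hne (hC.pinj _ hi _ hi' _ hjl _ hjl' h).1
  have n2 : P (e / 2) ju ≠ P (e' / 2) ju' := fun h => hne (hC.pinj _ hi _ hi' _ hju _ hju' h).1
  have bb1 := I.bb (P (e' / 2) jl') fun j _ hj h =>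
    hne (hC.pinj _ hi' _ hi _ hjl' j (by omega) h).1.symm
  have bb2 := I'.bb (P (e / 2) ju) fun j _ hj h => hne (hC.pinj _ hi _ hi' _ hju j (by omega) h).1
  have x1 : 0 < T.dist (P (e' / 2) jl') (P (e / 2) jl) :=
    hC.tree.connected.pos_dist_of_ne n1.symm
  have x2 : 0 < T.dist (P (e / 2) ju) (P (e' / 2) ju') := hC.tree.connected.pos_dist_of_ne n2
  have s1 := I.sum
  have s2 := I'.sum
  have l0 := I.l0
  have lt := I.lt
  have l0' := I'.l0
  have lt' := I'.lt
  have lu := I.lu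
  have lu' := I'.lu
  have qu := I.qu
  have adj := I.adj
  have hq := I.hq
  have tri1 := hC.tree.connected.dist_triangle (u := P (e' / 2) jl') (v := P (e / 2) ju)
    (w := P (e / 2) jq)
  have tri2 := hC.tree.connected.dist_triangle (u := P (e' / 2) jl') (v := P (e / 2) jq)
    (w := P (e / 2) jl)
  have ad1 : T.dist (P (e / 2) jl) (P (e / 2) jq) = 1 := SimpleGraph.dist_eq_one_iff_adj.2 adj
  -- names
  generalize hl : P (e / 2) jl = l at *
  generalize hl' : P (e' / 2) jl' = l' at *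
  generalize hu : P (e / 2) ju = u at *
  generalize hv : P (e' / 2) ju' = v at *
  generalize hqq : P (e / 2) jq = q at *
  have hT := hC.tree
  have f1 := hFOUR V T hT l' u l (c 0)
  have f2 := hFOUR V T hT l' u l (c t)
  have f3 := hFOUR V T hT u v l' (c 0)
  have f4 := hFOUR V T hT u v l' (c t)
  have f5 := hFOUR V T hT u (c t) v (c 0)
  have f6 := hFOUR V T hT u (c 0) v (c t)
  have par := hPAR V T hT u v (c 0)
  have k1 : T.dist u l = T.dist l u := SimpleGraph.dist_comm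
  have k2 : T.dist v l' = T.dist l' v := SimpleGraph.dist_comm
  have k3 : T.dist v u = T.dist u v := SimpleGraph.dist_comm
  have k4 : T.dist u l' = T.dist l' u := SimpleGraph.dist_comm
  have k5 : T.dist l l' = T.dist l' l := SimpleGraph.dist_comm
  have k6 : T.dist (c t) (c 0) = T.dist (c 0) (c t) := SimpleGraph.dist_comm
  have k7 : T.dist u q = T.dist q u := SimpleGraph.dist_comm
  have k8 : T.dist q l = T.dist l q := SimpleGraph.dist_comm
  have k9 : T.dist (c 0) v = T.dist v (c 0) := SimpleGraph.dist_comm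
  have k10 : T.dist (c t) v = T.dist v (c t) := SimpleGraph.dist_comm
  rw [k1] at f1 f2
  rw [k2] at f3 f4
  rw [k4] at f3 f4 bb2
  rw [k6, hct, k10] at f5
  rw [hct, k9] at f6
  rw [k7] at tri1
  rw [k8] at tri2
  rw [k5]
  -- (1)
  have r1 : T.dist l' l = T.dist l' u + (rr t - 1) := by
    rcases bb1 with h | h
    · exact h
    · exact (ar1 h rfl hr f1 f2 l0 lt l0' lt' lu s1 s2 x1).elim
  -- (2)
  have r2 : T.dist l' u = T.dist u v + (rr t - 1) := by
    rcases bb2 with h | h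
    · exact h
    · exact (ar2 h rfl hr f3 f4 l0' lt' lu' s1 s2).elim
  -- (3)
  have r3 : 2 ≤ T.dist u v := by
    by_contra hcon
    have h1 : T.dist u v = 1 := by clear f1 f2 f3 f4 f5 f6; omega
    rw [h1] at f5 f6 par
    exact ar3 rfl hr hrt.1 hrt.2 f5 f6 par l0 lt l0' lt' dl.1 dl.2 dl'.1 dl'.2 s1 s2
  clear f1 f2 f3 f4 f5 f6 bb1 bb2
  refine ⟨by omega, e / 2, hi, jq, hq, ?_, ?_⟩
  · rw [hqq]; exact adj
  · rw [hqq]
    omega

end Pool.Agent.W230.TP
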